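import Mathlib

/-! Normal form of a skew map in a Euclidean space of dimension four (helper164, for the project C4 of
helper768). -/

set_option autoImplicit false

open Set Topology Module
open scoped InnerProductSpace

namespace Pool.Agent.H164.C4

section

set_option linter.unusedSectionVars false

variable {E : Type*} [NormedAddCommGroup E] [InnerProductSpace ℝ E] [FiniteDimensional ℝ E]

theorem exists_unit_orth (s : Finset E) (h : s.card < finrank ℝ E) :
    ∃ x : E, ‖x‖ = 1 ∧ ∀ v ∈ s, ⟪v, x⟫_ℝ = 0 := by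
  classical
  set S : Submodule ℝ E := Submodule.span ℝ (s : Set E) with hS
  have h1 : finrank ℝ S ≤ s.card := finrank_span_finset_le_card s
  have h2 := Submodule.finrank_add_finrank_orthogonal S
  have h3 : 0 < finrank ℝ Sᗮ := by omega
  obtain ⟨x, hx⟩ := (finrank_pos_iff_exists_ne_zero).mp h3
  have hx0 : (x : E) ≠ 0 := by
    simpa using hx
  have hn : ‖(x:E)‖ ≠ 0 := norm_ne_zero_iff.mpr hx0
  refine ⟨(‖(x:E)‖)⁻¹ • (x : E), ?_, ?_⟩
  · rw [norm_smul, norm_inv, norm_norm, inv_mul_cancel₀ hn]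
  · intro v hv
    rw [inner_smul_right]
    have := (Submodule.mem_orthogonal S (x:E)).mp x.2 v (Submodule.subset_span hv)
    rw [this, mul_zero]

/-- the linear map `ℂ × ℂ → E` of four vectors -/
noncomputable def LL (v w x y : E) : (ℂ × ℂ) →ₗ[ℝ] E where
  toFun z := z.1.re • v + z.1.im • w + z.2.re • x + z.2.im • y
  map_add' z z' := by
    simp only [Prod.fst_add, Prod.snd_add, Complex.add_re, Complex.add_im, add_smul]
    abel
  map_smul' r z := by
    simp only [Prod.smul_fst, Prod.smul_snd, Complex.real_smul, Complex.mul_re, Complex.mul_im,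
      Complex.ofReal_re, Complex.ofReal_im, zero_mul, sub_zero, add_zero, mul_smul, smul_add,
      RingHom.id_apply]

theorem LL_apply (v w x y : E) (z : ℂ × ℂ) :
    LL v w x y z = z.1.re • v + z.1.im • w + z.2.re • x + z.2.im • y := rfl

/-- four orthonormal vectors -/
structure ON (v w x y : E) : Prop where
  nv : ‖v‖ = 1
  nw : ‖w‖ = 1
  nx : ‖x‖ = 1
  ny : ‖y‖ = 1
  vw : ⟪v, w⟫_ℝ = 0
  vx : ⟪v, x⟫_ℝ = 0
  vy : ⟪v, y⟫_ℝ = 0
  wx : ⟪w, x⟫_ℝ = 0
  wy : ⟪w, y⟫_ℝ = 0
  xy : ⟪x, y⟫_ℝ = 0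

theorem ON.coord {v w x y : E} (h : ON v w x y) (z : ℂ × ℂ) :
    ⟪v, LL v w x y z⟫_ℝ = z.1.re ∧ ⟪w, LL v w x y z⟫_ℝ = z.1.im ∧
    ⟪x, LL v w x y z⟫_ℝ = z.2.re ∧ ⟪y, LL v w x y z⟫_ℝ = z.2.im := by
  obtain ⟨nv, nw, nx, ny, vw, vx, vy, wx, wy, xy⟩ := h
  have hv : ⟪v, v⟫_ℝ = 1 := by rw [real_inner_self_eq_norm_sq, nv]; norm_num
  have hw : ⟪w, w⟫_ℝ = 1 := by rw [real_inner_self_eq_norm_sq, nw]; norm_num
  have hx : ⟪x, x⟫_ℝ = 1 := by rw [real_inner_self_eq_norm_sq, nx]; norm_num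
  have hy : ⟪y, y⟫_ℝ = 1 := by rw [real_inner_self_eq_norm_sq, ny]; norm_num
  have wv := (real_inner_comm v w).trans vw
  have xv := (real_inner_comm v x).trans vx
  have yv := (real_inner_comm v y).trans vy
  have xw := (real_inner_comm w x).trans wx
  have yw := (real_inner_comm w y).trans wy
  have yx := (real_inner_comm x y).trans xy
  simp only [LL_apply, inner_add_right, inner_smul_right, hv, hw, hx, hy, vw, vx, vy, wx, wy, xy,
    wv, xv, yv, xw, yw, yx]
  refine ⟨?_, ?_, ?_, ?_⟩ <;> ring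

theorem ON.injective {v w x y : E} (h : ON v w x y) : Function.Injective (LL v w x y) := by
  intro z z' hz
  obtain ⟨a1, a2, a3, a4⟩ := h.coord z
  obtain ⟨b1, b2, b3, b4⟩ := h.coord z'
  rw [hz] at a1 a2 a3 a4
  refine Prod.ext (Complex.ext ?_ ?_) (Complex.ext ?_ ?_)
  · rw [← a1, b1]
  · rw [← a2, b2]
  · rw [← a3, b3]
  · rw [← a4, b4]

theorem finrank_CC : finrank ℝ (ℂ × ℂ) = 4 := by
  rw [Module.finrank_prod, Complex.finrank_real_complex]

theorem ON.expand {v w x y : E} (h : ON v w x y) (h4 : finrank ℝ E = 4) (u : E) :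
    u = ⟪v, u⟫_ℝ • v + ⟪w, u⟫_ℝ • w + ⟪x, u⟫_ℝ • x + ⟪y, u⟫_ℝ • y := by
  have hf : finrank ℝ (ℂ × ℂ) = finrank ℝ E := by rw [finrank_CC, h4]
  have hs := (LinearMap.linearEquivOfInjective (LL v w x y) h.injective hf).surjective u
  obtain ⟨z, hz⟩ := hs
  have hz' : LL v w x y z = u := hz
  obtain ⟨a1, a2, a3, a4⟩ := h.coord z
  rw [hz'] at a1 a2 a3 a4
  rw [a1, a2, a3, a4, ← LL_apply, hz']

theorem ON.form {v w x y : E} (h : ON v w x y) (h4 : finrank ℝ E = 4) (X : E →ₗ[ℝ] E) {α β : ℝ}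
    (e1 : X v = α • w) (e2 : X w = -(α • v)) (e3 : X x = β • y) (e4 : X y = -(β • x)) :
    ∃ e : (ℂ × ℂ) ≃ₗ[ℝ] E, ∀ z : ℂ × ℂ,
      X (e z) = e ((α * Complex.I) * z.1, (β * Complex.I) * z.2) := by
  have hf : finrank ℝ (ℂ × ℂ) = finrank ℝ E := by rw [finrank_CC, h4]
  refine ⟨LinearMap.linearEquivOfInjective (LL v w x y) h.injective hf, fun z => ?_⟩
  show X (LL v w x y z) = LL v w x y ((α * Complex.I) * z.1, (β * Complex.I) * z.2)
  rw [LL_apply, LL_apply]
  simp only [map_add, map_smul, e1, e2, e3, e4, Complex.mul_re, Complex.mul_im, Complex.I_re,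
    Complex.I_im, Complex.ofReal_re, Complex.ofReal_im, mul_zero, zero_mul, mul_one,
    zero_sub, add_zero, zero_add, smul_neg, smul_smul, neg_smul, sub_self]
  rw [mul_comm z.1.re α, mul_comm z.1.im α, mul_comm z.2.re β, mul_comm z.2.im β]
  abel

theorem skew_form (h4 : finrank ℝ E = 4) (X : E →ₗ[ℝ] E) (hX : X ≠ 0)
    (hs : ∀ x y, ⟪X x, y⟫_ℝ = -⟪x, X y⟫_ℝ) :
    ∃ (e : (ℂ × ℂ) ≃ₗ[ℝ] E) (α β : ℝ), 0 < α ∧ 0 ≤ β ∧ β ≤ α ∧ ∀ z : ℂ × ℂ,
      X (e z) = e ((α * Complex.I) * z.1, (β * Complex.I) * z.2) := by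
  classical
  have hs0 : ∀ x, ⟪x, X x⟫_ℝ = 0 := by
    intro x
    have h := hs x x
    rw [real_inner_comm] at h
    linarith
  -- the symmetric map
  set T : E →ₗ[ℝ] E := -(X ∘ₗ X) with hT
  have hTs : T.IsSymmetric := by
    intro x y
    simp only [hT, LinearMap.neg_apply, LinearMap.comp_apply, inner_neg_left, inner_neg_right]
    rw [hs, hs]
    ring
  obtain ⟨v, lam, hv1, hlam, hTv⟩ : ∃ (v : E) (lam : ℝ), ‖v‖ = 1 ∧ lam ≠ 0 ∧ T v = lam • v := by
    by_contra hcon
    push Not at hcon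
    apply hX
    have hT0 : ∀ i, T (hTs.eigenvectorBasis h4 i) = 0 := by
      intro i
      have h1 := hTs.apply_eigenvectorBasis h4 i
      have h2 : ‖hTs.eigenvectorBasis h4 i‖ = 1 := (hTs.eigenvectorBasis h4).orthonormal.1 i
      by_cases h3 : hTs.eigenvalues h4 i = 0
      · rw [h1, h3]
        simp
      · exact absurd h1 (hcon _ _ h2 h3)
    have hT1 : T = 0 := by
      refine (hTs.eigenvectorBasis h4).toBasis.ext fun i => ?_
      rw [OrthonormalBasis.coe_toBasis, hT0 i, LinearMap.zero_apply]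
    ext x
    have h5 : T x = 0 := by rw [hT1]; rfl
    have h6 : ⟪X x, X x⟫_ℝ = 0 := by
      have h7 := hs x (X x)
      rw [h7]
      have h8 : X (X x) = 0 := by
        simp only [hT, LinearMap.neg_apply, LinearMap.comp_apply, neg_eq_zero] at h5
        exact h5
      rw [h8, inner_zero_right, neg_zero]
    rw [LinearMap.zero_apply]
    exact inner_self_eq_zero.mp h6
  have hXXv : X (X v) = -(lam • v) := by
    rw [← hTv]
    simp [hT]
  have hlam1 : lam = ‖X v‖ ^ 2 := by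
    have h1 : ⟪X v, X v⟫_ℝ = -⟪v, X (X v)⟫_ℝ := hs v (X v)
    rw [hXXv, inner_neg_right, inner_smul_right, real_inner_self_eq_norm_sq,
      real_inner_self_eq_norm_sq, hv1] at h1
    linarith
  set α : ℝ := ‖X v‖ with hα
  have hα0 : 0 < α := by
    refine lt_of_le_of_ne (norm_nonneg _) fun h => hlam ?_
    rw [hlam1, ← h]
    norm_num
  set w : E := α⁻¹ • X v with hw
  have hXv : X v = α • w := by rw [hw, smul_smul, mul_inv_cancel₀ hα0.ne', one_smul]
  have hXw : X w = -(α • v) := by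
    rw [hw, map_smul, hXXv, hlam1, smul_neg, smul_smul]
    congr 2
    field_simp
  have hw1 : ‖w‖ = 1 := by
    rw [hw, norm_smul, norm_inv, Real.norm_eq_abs, abs_of_pos hα0, ← hα,
      inv_mul_cancel₀ hα0.ne']
  have hvw : ⟪v, w⟫_ℝ = 0 := by
    rw [hw, inner_smul_right, hs0, mul_zero]
  obtain ⟨x, hx1, hx⟩ := exists_unit_orth ({v, w} : Finset E)
    (by rw [h4]; exact (Finset.card_le_two).trans_lt (by norm_num))
  have hvx := hx v (by simp)
  have hwx := hx w (by simp)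
  obtain ⟨y, hy1, hy⟩ := exists_unit_orth ({v, w, x} : Finset E)
    (by rw [h4]; exact (Finset.card_le_three).trans_lt (by norm_num))
  have hvy := hy v (by simp)
  have hwy := hy w (by simp)
  have hxy := hy x (by simp)
  have hON : ON v w x y := ⟨hv1, hw1, hx1, hy1, hvw, hvx, hvy, hwx, hwy, hxy⟩
  have hvX : ∀ u, ⟪w, u⟫_ℝ = 0 → ⟪v, X u⟫_ℝ = 0 := by
    intro u hu
    have h1 := hs v u
    rw [hXv, inner_smul_left, hu, mul_zero] at h1
    linarith
  have hwX : ∀ u, ⟪v, u⟫_ℝ = 0 → ⟪w, X u⟫_ℝ = 0 := by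
    intro u hu
    have h1 := hs w u
    rw [hXw, inner_neg_left, inner_smul_left, hu, mul_zero] at h1
    linarith
  set β : ℝ := ⟪y, X x⟫_ℝ with hβ
  have hXx : X x = β • y := by
    have h1 := hON.expand h4 (X x)
    rw [hvX x hwx, hwX x hvx, hs0 x, zero_smul, zero_smul, zero_smul, zero_add, zero_add,
      zero_add] at h1
    exact h1
  have hXy : X y = -(β • x) := by
    have h1 := hON.expand h4 (X y)
    have h2 : ⟪x, X y⟫_ℝ = -β := by
      have h3 := hs x y
      have h5 := real_inner_comm (X x) y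
      rw [hβ]
      linarith
    rw [hvX y hwy, hwX y hvy, hs0 y, zero_smul, zero_smul, zero_smul, zero_add, zero_add,
      add_zero, h2, neg_smul] at h1
    exact h1
  -- the sign of `β`
  obtain ⟨y', β', hβ', hON', hXx', hXy'⟩ : ∃ (y' : E) (β' : ℝ), 0 ≤ β' ∧ ON v w x y' ∧
      X x = β' • y' ∧ X y' = -(β' • x) := by
    rcases le_total 0 β with h | h
    · exact ⟨y, β, h, hON, hXx, hXy⟩
    · refine ⟨-y, -β, by linarith, ⟨hv1, hw1, hx1, by rw [norm_neg, hy1], hvw, hvx, ?_, hwx, ?_,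
        ?_⟩, ?_, ?_⟩
      · rw [inner_neg_right, hvy, neg_zero]
      · rw [inner_neg_right, hwy, neg_zero]
      · rw [inner_neg_right, hxy, neg_zero]
      · rw [hXx, smul_neg, neg_smul, neg_neg]
      · rw [map_neg, hXy, neg_smul]
  rcases le_total β' α with h | h
  · obtain ⟨e, he⟩ := hON'.form h4 X hXv hXw hXx' hXy'
    exact ⟨e, α, β', hα0, hβ', h, he⟩
  · have hON2 : ON x y' v w := by
      obtain ⟨nv, nw, nx, ny, vw, vx, vy, wx, wy, xy⟩ := hON'
      refine ⟨nx, ny, nv, nw, xy, ?_, ?_, ?_, ?_, vw⟩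
      · rw [real_inner_comm]; exact vx
      · rw [real_inner_comm]; exact wx
      · rw [real_inner_comm]; exact vy
      · rw [real_inner_comm]; exact wy
    obtain ⟨e, he⟩ := hON2.form h4 X hXx' hXy' hXv hXw
    exact ⟨e, β', α, hα0.trans_le h, hα0.le, h, he⟩

end

/-- the normal form for an invariant inner product given by a bilinear form -/
theorem bil_form {V : Type*} [AddCommGroup V] [Module ℝ V] [FiniteDimensional ℝ V]
    (h4 : finrank ℝ V = 4) (B : V → V → ℝ) (hadd : ∀ x y z, B (x + y) z = B x z + B y z)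
    (hsmul : ∀ (r : ℝ) x y, B (r • x) y = r * B x y) (hsymm : ∀ x y, B x y = B y x)
    (hpos : ∀ x, x ≠ 0 → 0 < B x x) (X : V →ₗ[ℝ] V) (hX : X ≠ 0)
    (hs : ∀ x y, B (X x) y + B x (X y) = 0) :
    ∃ (e : (ℂ × ℂ) ≃ₗ[ℝ] V) (α β : ℝ), 0 < α ∧ 0 ≤ β ∧ β ≤ α ∧ ∀ z : ℂ × ℂ,
      X (e z) = e ((α * Complex.I) * z.1, (β * Complex.I) * z.2) := by
  have h00 : B 0 0 = 0 := by
    have := hsmul 0 0 0
    rw [zero_smul, zero_mul] at this
    exact this
  let c : InnerProductSpace.Core ℝ V :=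
    { inner := B
      conj_inner_symm := fun x y => by
        show B y x = B x y
        exact hsymm y x
      re_inner_nonneg := fun x => by
        show 0 ≤ B x x
        by_cases h : x = 0
        · rw [h, h00]
        · exact (hpos x h).le
      add_left := hadd
      smul_left := fun x y r => by
        show B (r • x) y = r * B x y
        exact hsmul r x y
      definite := fun x h => by
        by_contra hx
        exact (hpos x hx).ne' h }
  let _ : NormedAddCommGroup V := c.toNormedAddCommGroup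
  let _ : InnerProductSpace ℝ V := InnerProductSpace.ofCore c.toCore
  refine skew_form h4 X hX fun x y => ?_
  have h1 := hs x y
  have h2 : ⟪X x, y⟫_ℝ = B (X x) y := rfl
  have h3 : ⟪x, X y⟫_ℝ = B x (X y) := rfl
  rw [h2, h3]
  linarith

end Pool.Agent.H164.C4
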