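import Pool.Agent.H768.C4.Iface
import Pool.Agent.H164.C4.Lin

/-! The statement `S_form` of the project C4 of helper768 (helper164). -/

set_option autoImplicit false

open Set Topology Module Filter MeasureTheory
open scoped InnerProductSpace

namespace Pool.Agent.H164.C4

theorem lim_exists {f : ℕ → ℝ} {D : ℝ} (h : ∀ n, |f n| ≤ D) :
    ∃ L, Tendsto f (Filter.hyperfilter ℕ : Filter ℕ) (𝓝 L) := by
  have hc : IsCompact (Set.Icc (-D) D) := isCompact_Icc
  have hle : (((Filter.hyperfilter ℕ).map f : Ultrafilter ℝ) : Filter ℝ) ≤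
      𝓟 (Set.Icc (-D) D) := by
    rw [Filter.le_principal_iff]
    show f ⁻¹' (Set.Icc (-D) D) ∈ (Filter.hyperfilter ℕ : Filter ℕ)
    exact Filter.univ_mem' fun n => abs_le.mp (h n)
  obtain ⟨L, -, hL⟩ := hc.ultrafilter_le_nhds _ hle
  exact ⟨L, hL⟩

section

variable {V : Type} [NormedAddCommGroup V] [NormedSpace ℝ V] [FiniteDimensional ℝ V]

theorem exp_form (X : V →L[ℝ] V) (e : (ℂ × ℂ) ≃ₗ[ℝ] V) (α β : ℝ)
    (h : ∀ z : ℂ × ℂ, X (e z) = e ((α * Complex.I) * z.1, (β * Complex.I) * z.2)) (t : ℝ)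
    (z : ℂ × ℂ) : NormedSpace.exp (t • X) (e z) =
      e (Complex.exp ((α * t : ℝ) * Complex.I) * z.1, Complex.exp ((β * t : ℝ) * Complex.I) * z.2)
    := by
  have : CompleteSpace V := FiniteDimensional.complete ℝ V
  set a : ℂ := (α * t : ℝ) * Complex.I with ha
  set b : ℂ := (β * t : ℝ) * Complex.I with hb
  have hY : ∀ z : ℂ × ℂ, (t • X) (e z) = e (a * z.1, b * z.2) := by
    intro z
    show t • X (e z) = _
    rw [h z, ← map_smul]
    congr 1
    refine Prod.ext ?_ ?_
    · simp only [Prod.smul_fst, Complex.real_smul, ha]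
      push_cast
      ring
    · simp only [Prod.smul_snd, Complex.real_smul, hb]
      push_cast
      ring
  have hpow : ∀ (n : ℕ) (z : ℂ × ℂ), ((t • X) ^ n) (e z) = e (a ^ n * z.1, b ^ n * z.2) := by
    intro n
    induction n with
    | zero =>
      intro z
      simp
    | succ n ih =>
      intro z
      rw [pow_succ']
      show (t • X) (((t • X) ^ n) (e z)) = _
      rw [ih, hY]
      congr 1
      refine Prod.ext ?_ ?_
      · simp only [pow_succ']
        ring
      · simp only [pow_succ']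
        ring
  have h1 := NormedSpace.exp_series_hasSum_exp' (𝕂 := ℝ) (t • X)
  have h2 := (ContinuousLinearMap.apply ℝ V (e z)).hasSum h1
  have h3 := (NormedSpace.exp_series_hasSum_exp' (𝕂 := ℝ) a).mul_right z.1
  have h4 := (NormedSpace.exp_series_hasSum_exp' (𝕂 := ℝ) b).mul_right z.2
  have h5 := (LinearMap.toContinuousLinearMap (e : (ℂ × ℂ) →ₗ[ℝ] V)).hasSum (h3.prodMk h4)
  rw [← Complex.exp_eq_exp_ℂ] at h5
  refine h2.unique ?_
  have h6 : (fun n : ℕ => (ContinuousLinearMap.apply ℝ V (e z))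
      ((n.factorial⁻¹ : ℝ) • (t • X) ^ n)) = fun n : ℕ =>
      (LinearMap.toContinuousLinearMap (e : (ℂ × ℂ) →ₗ[ℝ] V))
        ((n.factorial⁻¹ : ℝ) • a ^ n * z.1, (n.factorial⁻¹ : ℝ) • b ^ n * z.2) := ?_
  · rw [h6]
    exact h5
  funext n
  show (n.factorial⁻¹ : ℝ) • ((t • X) ^ n) (e z) = e ((n.factorial⁻¹ : ℝ) • a ^ n * z.1,
    (n.factorial⁻¹ : ℝ) • b ^ n * z.2)
  rw [hpow, ← map_smul]
  congr 1
  refine Prod.ext ?_ ?_
  · simp only [Prod.smul_fst, smul_mul_assoc]
  · simp only [Prod.smul_snd, smul_mul_assoc]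

omit [FiniteDimensional ℝ V] in
theorem bound (K : Set V) (hK : IsCompact K) (h0 : (0 : V) ∈ interior K) (X : V →L[ℝ] V)
    (h : ∀ (t : ℝ), ∀ v ∈ K, NormedSpace.exp (t • X) v ∈ K) :
    ∃ C : ℝ, 0 < C ∧ ∀ (t : ℝ) (v : V), ‖NormedSpace.exp (t • X) v‖ ≤ C * ‖v‖ := by
  obtain ⟨ρ, hρ, hb⟩ := Metric.mem_nhds_iff.mp (mem_interior_iff_mem_nhds.mp h0)
  obtain ⟨R, hR⟩ := hK.isBounded.exists_norm_le
  have hR0 : 0 ≤ R := (norm_nonneg _).trans (hR 0 (interior_subset h0))
  refine ⟨2 * (R + 1) / ρ, by positivity, fun t v => ?_⟩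
  by_cases hv : v = 0
  · rw [hv, map_zero, norm_zero, mul_zero]
  · have hn : 0 < ‖v‖ := norm_pos_iff.mpr hv
    have hu : (ρ / (2 * ‖v‖)) • v ∈ K := by
      apply hb
      rw [Metric.mem_ball, dist_zero_right, norm_smul, Real.norm_eq_abs,
        abs_of_pos (by positivity)]
      have : ρ / (2 * ‖v‖) * ‖v‖ = ρ / 2 := by field_simp
      rw [this]
      linarith
    have h1 := hR _ (h t _ hu)
    rw [map_smul, norm_smul, Real.norm_eq_abs, abs_of_pos (by positivity)] at h1
    have h2 : ‖NormedSpace.exp (t • X) v‖ = (2 * ‖v‖ / ρ) *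
        (ρ / (2 * ‖v‖) * ‖NormedSpace.exp (t • X) v‖) := by field_simp
    rw [h2]
    calc (2 * ‖v‖ / ρ) * (ρ / (2 * ‖v‖) * ‖NormedSpace.exp (t • X) v‖)
        ≤ (2 * ‖v‖ / ρ) * R := mul_le_mul_of_nonneg_left h1 (by positivity)
      _ ≤ (2 * ‖v‖ / ρ) * (R + 1) := mul_le_mul_of_nonneg_left (by linarith) (by positivity)
      _ = 2 * (R + 1) / ρ * ‖v‖ := by ring

end

theorem form : Pool.Agent.H768.C4.S_form := by
  intro V _ _ _ h4 K hK h0 X hX h
  have : CompleteSpace V := FiniteDimensional.complete ℝ V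
  obtain ⟨C, hC, hb⟩ := bound K hK h0 X h
  set b : V ≃L[ℝ] EuclideanSpace ℝ (Fin 4) := ContinuousLinearEquiv.ofFinrankEq
    (by rw [h4, finrank_euclideanSpace_fin]) with hbdef
  -- the scalar products along the flow
  set F : V → V → ℝ → ℝ := fun x y t =>
    ⟪b (NormedSpace.exp (t • X) x), b (NormedSpace.exp (t • X) y)⟫_ℝ with hF
  set D : V → V → ℝ := fun x y => (‖(b : V →L[ℝ] EuclideanSpace ℝ (Fin 4))‖ * (C * ‖x‖)) *
    (‖(b : V →L[ℝ] EuclideanSpace ℝ (Fin 4))‖ * (C * ‖y‖)) with hD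
  have hD0 : ∀ x y, 0 ≤ D x y := fun x y => by positivity
  have hbn : ∀ (x : V) (t : ℝ), ‖b (NormedSpace.exp (t • X) x)‖ ≤
      ‖(b : V →L[ℝ] EuclideanSpace ℝ (Fin 4))‖ * (C * ‖x‖) := by
    intro x t
    refine ((b : V →L[ℝ] EuclideanSpace ℝ (Fin 4)).le_opNorm _).trans ?_
    exact mul_le_mul_of_nonneg_left (hb t x) (norm_nonneg _)
  have hFD : ∀ x y t, |F x y t| ≤ D x y := by
    intro x y t
    refine (abs_real_inner_le_norm _ _).trans ?_
    exact mul_le_mul (hbn x t) (hbn y t) (norm_nonneg _) ((norm_nonneg _).trans (hbn x t))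
  have hder : ∀ (x : V) (t : ℝ), HasDerivAt (fun t : ℝ => b (NormedSpace.exp (t • X) x))
      (b (NormedSpace.exp (t • X) (X x))) t := by
    intro x t
    have h1 := hasDerivAt_exp_smul_const X t
    have h2 := ((ContinuousLinearMap.apply ℝ V x).hasFDerivAt.comp_hasDerivAt t h1)
    exact ((b : V →L[ℝ] EuclideanSpace ℝ (Fin 4)).hasFDerivAt.comp_hasDerivAt t h2)
  have hFder : ∀ x y t, HasDerivAt (F x y) (F (X x) y t + F x (X y) t) t := by
    intro x y t
    have h1 := (hder x t).inner ℝ (hder y t)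
    rw [add_comm] at h1
    exact h1
  have hFc : ∀ x y, Continuous (F x y) := by
    intro x y
    rw [continuous_iff_continuousAt]
    exact fun t => (hFder x y t).continuousAt
  have hFi : ∀ x y (s t : ℝ), IntervalIntegrable (F x y) volume s t := fun x y s t =>
    (hFc x y).intervalIntegrable s t
  -- the means
  set M : V → V → ℕ → ℝ := fun x y n => (∫ t in (0:ℝ)..n, F x y t) / n with hM
  have hMD : ∀ x y n, |M x y n| ≤ D x y := by
    intro x y n
    rcases Nat.eq_zero_or_pos n with hn | hn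
    · simp only [hM]
      rw [hn, Nat.cast_zero, div_zero, abs_zero]
      exact hD0 x y
    · have hn' : (0:ℝ) < n := by exact_mod_cast hn
      have h1 : ‖∫ t in (0:ℝ)..n, F x y t‖ ≤ D x y * |(n:ℝ) - 0| :=
        intervalIntegral.norm_integral_le_of_norm_le_const fun t _ => hFD x y t
      rw [Real.norm_eq_abs, sub_zero, abs_of_pos hn'] at h1
      simp only [hM]
      rw [abs_div, abs_of_pos hn', div_le_iff₀ hn']
      exact h1
  have hlim : ∀ x y, ∃ L, Tendsto (M x y) (Filter.hyperfilter ℕ : Filter ℕ) (𝓝 L) :=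
    fun x y => lim_exists (hMD x y)
  choose B hB using hlim
  have hMadd : ∀ x y z n, M (x + y) z n = M x z n + M y z n := by
    intro x y z n
    simp only [hM]
    rw [← add_div, ← intervalIntegral.integral_add (hFi _ _ _ _) (hFi _ _ _ _)]
    congr 2
    funext t
    simp only [hF, map_add, inner_add_left]
  have hadd : ∀ x y z, B (x + y) z = B x z + B y z := by
    intro x y z
    refine tendsto_nhds_unique (hB (x + y) z) ?_
    exact ((hB x z).add (hB y z)).congr fun n => (hMadd x y z n).symm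
  have hsmul : ∀ (r : ℝ) x y, B (r • x) y = r * B x y := by
    intro r x y
    refine tendsto_nhds_unique (hB (r • x) y) ?_
    refine ((hB x y).const_mul r).congr fun n => ?_
    simp only [hM]
    rw [← mul_div_assoc, ← intervalIntegral.integral_const_mul]
    congr 2
    funext t
    simp only [hF, map_smul, inner_smul_left]
    rfl
  have hsymm : ∀ x y, B x y = B y x := by
    intro x y
    refine tendsto_nhds_unique (hB x y) ?_
    refine (hB y x).congr fun n => ?_
    simp only [hM, hF]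
    congr 2
    funext t
    exact real_inner_comm _ _
  have hpos : ∀ x, x ≠ 0 → 0 < B x x := by
    intro x hx
    have hn : 0 < ‖x‖ := norm_pos_iff.mpr hx
    set c : ℝ := ‖x‖ / (C * (‖(b.symm : EuclideanSpace ℝ (Fin 4) →L[ℝ] V)‖ + 1)) with hc
    have hc0 : 0 < c := by positivity
    have h1 : ∀ t : ℝ, c ≤ ‖b (NormedSpace.exp (t • X) x)‖ := by
      intro t
      have e1 : NormedSpace.exp ((-t) • X) (NormedSpace.exp (t • X) x) = x := by
        have e2 : NormedSpace.exp ((-t) • X) * NormedSpace.exp (t • X) = 1 := by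
          let _ : NormedAlgebra ℚ (V →L[ℝ] V) := NormedAlgebra.restrictScalars ℚ ℝ _
          rw [← NormedSpace.exp_add_of_commute, ← add_smul, neg_add_cancel, zero_smul,
            NormedSpace.exp_zero]
          exact (Commute.refl X).smul_left _ |>.smul_right _
        have e3 := congrArg (fun f : V →L[ℝ] V => f x) e2
        exact e3
      have e4 : ‖x‖ ≤ C * ‖NormedSpace.exp (t • X) x‖ := by
        calc ‖x‖ = ‖NormedSpace.exp ((-t) • X) (NormedSpace.exp (t • X) x)‖ := by rw [e1]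
          _ ≤ C * ‖NormedSpace.exp (t • X) x‖ := hb _ _
      have e5 : ‖NormedSpace.exp (t • X) x‖ ≤
          (‖(b.symm : EuclideanSpace ℝ (Fin 4) →L[ℝ] V)‖ + 1) *
            ‖b (NormedSpace.exp (t • X) x)‖ := by
        calc ‖NormedSpace.exp (t • X) x‖ = ‖b.symm (b (NormedSpace.exp (t • X) x))‖ := by
              rw [b.symm_apply_apply]
          _ ≤ ‖(b.symm : EuclideanSpace ℝ (Fin 4) →L[ℝ] V)‖ *
                ‖b (NormedSpace.exp (t • X) x)‖ :=
              (b.symm : EuclideanSpace ℝ (Fin 4) →L[ℝ] V).le_opNorm _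
          _ ≤ _ := mul_le_mul_of_nonneg_right (by linarith) (norm_nonneg _)
      rw [hc, div_le_iff₀ (by positivity)]
      calc ‖x‖ ≤ C * ‖NormedSpace.exp (t • X) x‖ := e4
        _ ≤ C * ((‖(b.symm : EuclideanSpace ℝ (Fin 4) →L[ℝ] V)‖ + 1) *
            ‖b (NormedSpace.exp (t • X) x)‖) := mul_le_mul_of_nonneg_left e5 hC.le
        _ = _ := by ring
    have h2 : ∀ t, c ^ 2 ≤ F x x t := by
      intro t
      simp only [hF]
      rw [real_inner_self_eq_norm_sq]
      exact pow_le_pow_left₀ hc0.le (h1 t) 2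
    have h3 : ∀ n : ℕ, 1 ≤ n → c ^ 2 ≤ M x x n := by
      intro n hn
      have hn' : (0:ℝ) < n := by exact_mod_cast hn
      simp only [hM]
      rw [le_div_iff₀ hn']
      have h4 := intervalIntegral.integral_mono_on (a := (0:ℝ)) (b := n) hn'.le
        (intervalIntegrable_const (c := c ^ 2)) (hFi x x 0 n) (fun t _ => h2 t)
      rw [intervalIntegral.integral_const, sub_zero, smul_eq_mul] at h4
      linarith
    have h5 : c ^ 2 ≤ B x x := by
      refine ge_of_tendsto (hB x x) ?_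
      exact ((eventually_ge_atTop 1).filter_mono Nat.hyperfilter_le_atTop).mono h3
    exact lt_of_lt_of_le (by positivity) h5
  have hskew : ∀ x y, B (X x) y + B x (X y) = 0 := by
    intro x y
    refine tendsto_nhds_unique ((hB (X x) y).add (hB x (X y))) ?_
    have h1 : ∀ n : ℕ, M (X x) y n + M x (X y) n = (F x y n - F x y 0) / n := by
      intro n
      simp only [hM]
      rw [← add_div, ← intervalIntegral.integral_add (hFi _ _ _ _) (hFi _ _ _ _)]
      rw [intervalIntegral.integral_eq_sub_of_hasDerivAt (f := F x y)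
        (fun t _ => hFder x y t) ((hFi _ _ _ _).add (hFi _ _ _ _))]
    have h2 : Tendsto (fun n : ℕ => (F x y n - F x y 0) / n) atTop (𝓝 0) := by
      have h3 : Tendsto (fun n : ℕ => (2 * D x y) / (n:ℝ)) atTop (𝓝 0) :=
        tendsto_const_div_atTop_nhds_zero_nat _
      refine squeeze_zero_norm (fun n => ?_) h3
      rw [norm_div, Real.norm_natCast]
      refine div_le_div_of_nonneg_right ?_ (Nat.cast_nonneg n)
      rw [Real.norm_eq_abs]
      have e1 := hFD x y n
      have e2 := hFD x y 0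
      rw [abs_le] at e1 e2 ⊢
      constructor <;> linarith [e1.1, e1.2, e2.1, e2.2]
    exact (h2.mono_left Nat.hyperfilter_le_atTop).congr fun n => (h1 n).symm
  obtain ⟨e, α, β, hα, hβ, hαβ, he⟩ := bil_form h4 B hadd hsmul hsymm hpos (X : V →ₗ[ℝ] V)
    (fun hX0 => hX (ContinuousLinearMap.coe_injective hX0)) hskew
  exact ⟨e, α, β, hα, hβ, hαβ, fun t z => exp_form X e α β he t z⟩

end Pool.Agent.H164.C4
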